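import Pool.Agent.W5h82.Disc.Sel
import Pool.Agent.H671R2.PolyAuto
import Pool.Agent.NPC.Dec
import Pool.Agent.H611R2.RawOut

/-!
# The reduction as a polynomial-time algorithm
-/

set_option autoImplicit false

namespace Pool.Agent.W5h82.Disc

open Pool.Agent.NPC

/-! ### The algorithm on lists -/

/-- bit `b` of `v` -/
def bitOf (v b : ℕ) : Bool := v.bits.getD b false

/-- the rows of the bits of the entries -/
def bitRows (k : ℕ) (B : List (List ℕ)) : List (List Bool) :=
  B.flatMap fun row => (List.range k).map fun b => row.map fun v => bitOf v b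

/-- the parity of a list -/
def parL (l : List Bool) : Bool := decide ((l.map fun b => bif b then 1 else 0).sum % 2 = 1)

/-- a row with prescribed parity -/
def extL (l : List Bool) (c : Bool) : List Bool := l ++ [parL l ^^ c]

/-- the number of even rows before row `i` -/
def rkL (c : List Bool) (i : ℕ) : ℕ :=
  ((List.range c.length).filter fun t => decide (t < i) && !(c.getD t false)).length

/-- the row used at position `i` -/
def rowL (E : List (List Bool)) (c : List Bool) (G : List (List Bool)) (i : ℕ) : List Bool :=
  if c.getD i false = false ∧ rkL c i < E.length then E.getD (rkL c i) [] else G.getD i []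

/-- the matrix -/
def matL (E : List (List Bool)) (c : List Bool) (G : List (List Bool)) : List (List Bool) :=
  (List.range c.length).map fun i => extL (rowL E c G i) (c.getD i false)

/-- a piece of the random string -/
def slice (r : List Bool) (a n : ℕ) : List Bool := (List.range n).map fun i => r.getD (a + i) false

/-- rows from the random string -/
def grid (r : List Bool) (a m N : ℕ) : List (List Bool) :=
  (List.range m).map fun i => slice r (a + i * N) N

/-- one run of the colouring algorithm, with random bits starting at position `o` -/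
def runL (F : List Bool → List Bool) (E : List (List Bool)) (r : List Bool) (m N cc o : ℕ) :
    List Bool :=
  F (pairBits (bits (matL E (slice r o m) (grid r (o + m) m N))) (slice r (o + m + m * N) cc))

/-- the relation from two colourings -/
def relL (N : ℕ) (x y : List Bool) : List ℤ :=
  (List.range N).map fun j => zval (x.getD j false) (y.getD j false) (x.getD N false)
    (y.getD N false)

/-- the number of columns -/
def cols (B : List (List ℕ)) : ℕ := (B.head?.getD []).length

/-- the number of random bits of the colouring algorithm -/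
def coins (ℓ : Polynomial ℕ) (m N : ℕ) : ℕ := ℓ.eval (m + (N + 1))

/-- the reduction, for the matrix `E` of bits -/
def solveE (F : List Bool → List Bool) (ℓ : Polynomial ℕ) (E : List (List Bool)) (N : ℕ)
    (r : List Bool) : List ℤ :=
  relL N (runL F E r (4 * E.length) N (coins ℓ (4 * E.length) N) 0)
    (runL F E r (4 * E.length) N (coins ℓ (4 * E.length) N)
      (4 * E.length + 4 * E.length * N + coins ℓ (4 * E.length) N))

/-- the reduction -/
def solveB (F : List Bool → List Bool) (ℓ : Polynomial ℕ) (q : ℕ) (B : List (List ℕ))
    (r : List Bool) : List ℤ :=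
  solveE F ℓ (bitRows (q.bits.length - 1) B) (cols B) r

/-- the reduction on bit strings -/
def solve (F : List Bool → List Bool) (ℓ : Polynomial ℕ) (x : List Bool) : List Bool :=
  bits ((unbits (ℕ × List (List ℕ)) (unpair x).1).elim []
    fun p => solveB F ℓ p.1 p.2 (unpair x).2)

theorem solve_eq (F : List Bool → List Bool) (ℓ : Polynomial ℕ) (q : ℕ) (B : List (List ℕ))
    (r : List Bool) : solve F ℓ (pairBits (bits (q, B)) r) = bits (solveB F ℓ q B r) := by
  unfold solve
  rw [unpair_pairBits, unbits_bits]
  rfl

/-! ### Polynomial time -/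

section poly

variable {α : Type} [TEnc α]

/-- polynomial-time functions on bit strings, with coded inputs and outputs -/
theorem poly_of_polyTime {F : List Bool → List Bool} (hF : PolyTime F) : Poly F := by
  have h1 : PC (fun x : List Bool => x) (fun x : List Bool => x) F :=
    H642R2.TMSim.polyTime_toPC hF
  have h2 : PC (bits : List Bool → List Bool) (fun x : List Bool => x) F :=
    PC.comp (g := F) (f := fun x => x) h1 H611R2.pc_toRaw
  exact PC.comp (g := fun x => x) (f := F) PC.rawIn h2

theorem poly_bits {β : Type} [TEnc β] : Poly (bits : β → List Bool) := by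
  have h : PC (bits : β → List Bool) (fun x : List Bool => x) (bits : β → List Bool) := by
    obtain ⟨c, p, h⟩ := PC.id (ea := (bits : β → List Bool))
    exact ⟨c, p, h⟩
  exact PC.comp (g := fun x => x) (f := (bits : β → List Bool)) PC.rawIn h

theorem poly_bits' {β : Type} [TEnc β] {f : α → β} (hf : Poly f) : Poly (fun a => bits (f a)) :=
  NPC.Poly.comp poly_bits hf

theorem poly_pairBits {x w : α → List Bool} (hx : Poly x) (hw : Poly w) :
    Poly (fun a => pairBits (x a) (w a)) := by
  unfold pairBits
  fun_prop

attribute [fun_prop] poly_bits' poly_pairBits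

theorem poly_bitOf {v b : α → ℕ} (hv : Poly v) (hb : Poly b) : Poly (fun a => bitOf (v a) (b a)) := by
  unfold bitOf
  have := NPC.Poly.natBits hv
  fun_prop

attribute [fun_prop] poly_bitOf

theorem poly_bitRows {k : α → ℕ} {B : α → List (List ℕ)} (hk : UPoly k) (hB : Poly B) :
    Poly (fun a => bitRows (k a) (B a)) := by
  unfold bitRows
  refine NPC.Poly.flatMap (F := fun a row => (List.range (k a)).map fun b =>
    row.map fun v => bitOf v b) hB ?_
  have h : Poly (fun p : α × List ℕ => List.range (k p.1)) :=
    NPC.Poly.comp (g := fun a => List.range (k a)) hk.range (NPC.Poly.fst NPC.Poly.id)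
  exact NPC.Poly.map (F := fun (p : α × List ℕ) b => p.2.map fun v => bitOf v b) h (by fun_prop)

theorem poly_parL {l : α → List Bool} (hl : Poly l) : Poly (fun a => parL (l a)) := by
  unfold parL
  fun_prop

attribute [fun_prop] poly_parL

theorem poly_extL {l : α → List Bool} {c : α → Bool} (hl : Poly l) (hc : Poly c) :
    Poly (fun a => extL (l a) (c a)) := by
  unfold extL
  fun_prop

attribute [fun_prop] poly_extL

theorem poly_rkL {c : α → List Bool} {i : α → ℕ} (hc : Poly c) (hi : Poly i) :
    Poly (fun a => rkL (c a) (i a)) := by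
  unfold rkL
  have h := (UPoly.length hc).range
  fun_prop

attribute [fun_prop] poly_rkL

theorem poly_rowL {E : α → List (List Bool)} {c : α → List Bool} {G : α → List (List Bool)}
    {i : α → ℕ} (hE : Poly E) (hc : Poly c) (hG : Poly G) (hi : Poly i) :
    Poly (fun a => rowL (E a) (c a) (G a) (i a)) := by
  unfold rowL
  fun_prop

attribute [fun_prop] poly_rowL

theorem poly_matL {E : α → List (List Bool)} {c : α → List Bool} {G : α → List (List Bool)}
    (hE : Poly E) (hc : Poly c) (hG : Poly G) :
    Poly (fun a => matL (E a) (c a) (G a)) := by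
  unfold matL
  have h := (UPoly.length hc).range
  fun_prop

attribute [fun_prop] poly_matL

theorem poly_slice {r : α → List Bool} {x n : α → ℕ} (hr : Poly r) (hx : Poly x) (hn : UPoly n) :
    Poly (fun a => slice (r a) (x a) (n a)) := by
  unfold slice
  have h := hn.range
  fun_prop

theorem poly_grid {r : α → List Bool} {x m n : α → ℕ} (hr : Poly r) (hx : Poly x) (hm : UPoly m)
    (hn : UPoly n) : Poly (fun a => grid (r a) (x a) (m a) (n a)) := by
  unfold grid
  refine NPC.Poly.map (F := fun a i => slice (r a) (x a + i * n a) (n a)) hm.range ?_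
  have h1 : UPoly (fun p : α × ℕ => n p.1) := UPoly.comp hn (NPC.Poly.fst NPC.Poly.id)
  have h2 := hn.toPoly
  exact poly_slice (by fun_prop) (by fun_prop) h1

theorem poly_runL {F : List Bool → List Bool} (hF : PolyTime F) {E : α → List (List Bool)}
    {r : α → List Bool} {m N cc o : α → ℕ} (hE : Poly E) (hr : Poly r) (hm : UPoly m)
    (hN : UPoly N) (hcc : UPoly cc) (ho : Poly o) :
    Poly (fun a => runL F (E a) (r a) (m a) (N a) (cc a) (o a)) := by
  unfold runL
  have h0 := hm.toPoly
  have h1 := hN.toPoly
  have h2 : Poly (fun a => slice (r a) (o a) (m a)) := poly_slice hr ho hm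
  have h3 : Poly (fun a => grid (r a) (o a + m a) (m a) (N a)) :=
    poly_grid hr (by fun_prop) hm hN
  have h4 : Poly (fun a => slice (r a) (o a + m a + m a * N a) (cc a)) :=
    poly_slice hr (by fun_prop) hcc
  exact NPC.Poly.comp (poly_of_polyTime hF) (by fun_prop)

theorem poly_zval {x y z w : α → Bool} (hx : Poly x) (hy : Poly y) (hz : Poly z) (hw : Poly w) :
    Poly (fun a => zval (x a) (y a) (z a) (w a)) := by
  unfold zval sgn
  fun_prop

attribute [fun_prop] poly_zval

theorem poly_relL {N : α → ℕ} {x y : α → List Bool} (hN : UPoly N) (hx : Poly x) (hy : Poly y) :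
    Poly (fun a => relL (N a) (x a) (y a)) := by
  unfold relL
  have h := hN.range
  have h2 := hN.toPoly
  fun_prop

theorem uPoly_cols {B : α → List (List ℕ)} (hB : Poly B) : UPoly (fun a => cols (B a)) := by
  unfold cols
  exact UPoly.length (by fun_prop)

theorem uPoly_coins (ℓ : Polynomial ℕ) {m N : α → ℕ} (hm : UPoly m) (hN : UPoly N) :
    UPoly (fun a => coins ℓ (m a) (N a)) := by
  unfold coins
  exact UPoly.eval (UPoly.add hm (UPoly.add hN (UPoly.const 1))) ℓ

theorem poly_solveE {F : List Bool → List Bool} (hF : PolyTime F) (ℓ : Polynomial ℕ)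
    {E : α → List (List Bool)} {N : α → ℕ} {r : α → List Bool} (hE : Poly E) (hN : UPoly N)
    (hr : Poly r) : Poly (fun a => solveE F ℓ (E a) (N a) (r a)) := by
  unfold solveE
  have hm : UPoly (fun a => 4 * (E a).length) := UPoly.mul (UPoly.const 4) (UPoly.length hE)
  have hc := uPoly_coins ℓ hm hN
  have h1 := hm.toPoly
  have h2 := hN.toPoly
  have h3 := hc.toPoly
  exact poly_relL hN (poly_runL hF hE hr hm hN hc (NPC.Poly.const 0))
    (poly_runL hF hE hr hm hN hc (by fun_prop))

theorem poly_solveB {F : List Bool → List Bool} (hF : PolyTime F) (ℓ : Polynomial ℕ)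
    {q : α → ℕ} {B : α → List (List ℕ)} {r : α → List Bool} (hq : Poly q) (hB : Poly B)
    (hr : Poly r) : Poly (fun a => solveB F ℓ (q a) (B a) (r a)) := by
  unfold solveB
  have h1 := NPC.Poly.natBits hq
  have h2 : UPoly (fun a => (q a).bits.length - 1) :=
    UPoly.of_le (by fun_prop) (UPoly.length h1) fun a => Nat.sub_le _ _
  exact poly_solveE hF ℓ (poly_bitRows h2 hB) (uPoly_cols hB) hr

theorem polyTime_solve {F : List Bool → List Bool} (hF : PolyTime F) (ℓ : Polynomial ℕ) :
    PolyTime (solve F ℓ) := by
  unfold solve
  apply polyTime_bits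
  have h1 : Poly (fun x : List Bool => (unpair x).1) := NPC.Poly.fst poly_unpair
  have h2 : Poly (fun x : List Bool => (unpair x).2) := NPC.Poly.snd poly_unpair
  refine NPC.Poly.optElim (o := fun x => unbits (ℕ × List (List ℕ)) (unpair x).1)
    (g := fun _ => ([] : List ℤ)) (h := fun x p => solveB F ℓ p.1 p.2 (unpair x).2)
    (NPC.Poly.comp poly_unbits h1) (NPC.Poly.const _) ?_
  exact poly_solveB hF ℓ (by fun_prop) (by fun_prop)
    (NPC.Poly.comp (g := fun x : List Bool => (unpair x).2) h2 (NPC.Poly.fst NPC.Poly.id))

end poly

end Pool.Agent.W5h82.Disc
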