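import Pool.Agent.W5h82.Disc.Lin

/-!
# A colouring has discrepancy larger than one on a constant fraction of the odd sets
-/

set_option autoImplicit false

namespace Pool.Agent.W5h82.Disc

open Finset

theorem exists_same_sign {n : ℕ} (hn : 9 ≤ n) (x : Fin n → Bool) :
    ∃ (S : Finset (Fin n)) (b : Bool), S.card = 5 ∧ ∀ j ∈ S, x j = b := by
  have h := card_filter_add_card_filter_not (s := (univ : Finset (Fin n))) (fun j => x j = true)
  rw [card_univ, Fintype.card_fin] at h
  by_cases h1 : 5 ≤ (univ.filter fun j => x j = true).card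
  · obtain ⟨S, hS, hc⟩ := exists_subset_card_eq h1
    exact ⟨S, true, hc, fun j hj => (mem_filter.1 (hS hj)).2⟩
  · have h2 : 5 ≤ (univ.filter fun j => ¬ x j = true).card := by omega
    obtain ⟨S, hS, hc⟩ := exists_subset_card_eq h2
    exact ⟨S, false, hc, fun j hj => by simpa using (mem_filter.1 (hS hj)).2⟩

theorem exists_shift (T : ℤ) : ∃ h : ℕ, h ≤ 5 ∧ (T + h) % 2 = 1 ∧ 2 ≤ |T + h| := by
  rcases Int.emod_two_eq_zero_or_one T with h | h
  · by_cases h1 : 2 ≤ |T + 1|
    · exact ⟨1, by omega, by omega, by simpa using h1⟩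
    · by_cases h2 : 2 ≤ |T + 3|
      · exact ⟨3, by omega, by omega, by simpa using h2⟩
      · refine ⟨5, by omega, by omega, ?_⟩
        rw [not_le, abs_lt] at h1 h2
        push_cast
        rw [le_abs]
        omega
  · by_cases h1 : 2 ≤ |T|
    · exact ⟨0, by omega, by simpa using h, by simpa using h1⟩
    · by_cases h2 : 2 ≤ |T + 2|
      · exact ⟨2, by omega, by omega, by simpa using h2⟩
      · refine ⟨4, by omega, by omega, ?_⟩
        rw [not_le, abs_lt] at h1 h2
        push_cast
        rw [le_abs]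
        omega

theorem exists_shift' (T : ℤ) (b : Bool) :
    ∃ h : ℕ, h ≤ 5 ∧ (T + h * sgn b) % 2 = 1 ∧ 2 ≤ |T + h * sgn b| := by
  cases b
  · obtain ⟨h, h1, h2, h3⟩ := exists_shift (-T)
    refine ⟨h, h1, ?_, ?_⟩
    · have : sgn false = -1 := rfl
      rw [this]; omega
    · have : T + h * sgn false = -(-T + h) := by
        have : sgn false = -1 := rfl
        rw [this]; ring
      rw [this, abs_neg]
      exact h3
  · obtain ⟨h, h1, h2, h3⟩ := exists_shift T
    have : sgn true = 1 := rfl
    rw [this]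
    exact ⟨h, h1, by simpa using h2, by simpa using h3⟩

/-- replace the entries in `S` by the characteristic function of `T` -/
def ovr {n : ℕ} (S T : Finset (Fin n)) (a : Fin n → Bool) : Fin n → Bool :=
  fun j => if j ∈ S then decide (j ∈ T) else a j

theorem dot_ovr {n : ℕ} {S T : Finset (Fin n)} (hT : T ⊆ S) (a x : Fin n → Bool) {b : Bool}
    (hb : ∀ j ∈ S, x j = b) : dot (ovr S T a) x = dot (ovr S ∅ a) x + T.card * sgn b := by
  unfold dot
  have h : ∀ j, (if ovr S T a j then sgn (x j) else 0) =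
      (if ovr S ∅ a j then sgn (x j) else 0) + if j ∈ T then sgn b else 0 := by
    intro j
    unfold ovr
    by_cases hS : j ∈ S
    · by_cases hj : j ∈ T
      · simp [hS, hj, hb j hS]
      · simp [hS, hj]
    · have : j ∉ T := fun h => hS (hT h)
      simp [hS, this]
  rw [sum_congr rfl fun j _ => h j, sum_add_distrib, sum_ite_mem, univ_inter, sum_const,
    nsmul_eq_mul]

theorem pr_small {n : ℕ} (hn : 9 ≤ n) (x : Fin n → Bool) :
    pr (fun a : Fin n → Bool => dot a x % 2 = 1 → |dot a x| ≤ 1) ≤ 31 / 32 := by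
  classical
  obtain ⟨S, b, hS, hb⟩ := exists_same_sign hn x
  set P : (Fin n → Bool) → Prop := fun a => dot a x % 2 = 1 → |dot a x| ≤ 1 with hP
  set G := univ.filter fun a : Fin n → Bool => ¬ P a with hG
  have h1 : (univ : Finset (Fin n → Bool)) ⊆
      (G ×ˢ S.powerset).image fun p => ovr S p.2 p.1 := by
    intro a _
    obtain ⟨h, h1, h2, h3⟩ := exists_shift' (dot (ovr S ∅ a) x) b
    obtain ⟨T, hT, hc⟩ := exists_subset_card_eq (s := S) (n := h) (by omega)
    rw [mem_image]
    refine ⟨(ovr S T a, S.filter fun j => a j = true), ?_, ?_⟩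
    · rw [mem_product, mem_powerset]
      refine ⟨?_, filter_subset _ _⟩
      rw [hG, mem_filter]
      refine ⟨mem_univ _, fun h4 => ?_⟩
      rw [hP] at h4
      simp only at h4
      rw [dot_ovr hT a x hb, hc] at h4
      have := h4 h2
      omega
    · funext j
      unfold ovr
      by_cases hj : j ∈ S
      · simp [hj]
      · simp [hj]
  have h2 : 2 ^ n ≤ G.card * 32 := by
    have h3 := (card_le_card h1).trans card_image_le
    rw [card_product, card_powerset, hS] at h3
    simpa using h3
  have h4 : pr (fun a => ¬ P a) = (G.card : ℝ) / 2 ^ n := by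
    rw [pr_eq, Fintype.card_fun]
    simp [hG]
  have h5 : (1 / 32 : ℝ) ≤ pr (fun a => ¬ P a) := by
    rw [h4, le_div_iff₀ (by positivity)]
    have : ((2 ^ n : ℕ) : ℝ) ≤ ((G.card * 32 : ℕ) : ℝ) := by exact_mod_cast h2
    push_cast at this
    linarith
  rw [pr_not] at h5
  linarith

/-- the probability that an odd or even random row is bad for `x` -/
theorem pr_ext {N : ℕ} (hN : 8 ≤ N) (x : Fin (N + 1) → Bool) :
    pr (fun p : (Fin N → Bool) × Bool => p.2 = true → |dot (ext p.1 p.2) x| ≤ 1) ≤ 31 / 32 := by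
  refine le_trans ?_ (pr_small (n := N + 1) (by omega) x)
  rw [← pr_equiv (extEquiv N) (fun a : Fin (N + 1) → Bool => dot a x % 2 = 1 → |dot a x| ≤ 1)]
  refine pr_mono fun p hp h => hp ?_
  obtain ⟨f, c⟩ := p
  change dot (ext f c) x % 2 = 1 at h
  have := dot_ext_mod f c x
  unfold Int.ModEq at this
  rw [h] at this
  cases c
  · simp at this
  · rfl

end Pool.Agent.W5h82.Disc
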