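import Pool.Agent.NPC.Defs

/-!
# Colourings of random set systems, and short integer solutions: definitions

Polynomial time (`PolyTime`: Turing machines), `pairBits` and the codes `bits` of structured data by
bit strings (numbers in binary) are defined in `Pool/Agent/NPC/Defs.lean`.
-/

namespace Pool.Agent.W5h82.Disc

open Pool.Agent.NPC

/-- The sign `1` or `-1` given by a bit. -/
def sgn (b : Bool) : ℤ := if b then 1 else -1

/-- The value at the row `a` of the colouring `x`: the sum of the signs of the elements of the set
with characteristic vector `a`. -/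
def dot {n : ℕ} (a x : Fin n → Bool) : ℤ := ∑ j, if a j then sgn (x j) else 0

/-- The colouring `x` has discrepancy at most one on the set system with incidence matrix `A`. -/
def DiscOne {m n : ℕ} (A : Fin m → Fin n → Bool) (x : Fin n → Bool) : Prop :=
  ∀ i, |dot (A i) x| ≤ 1

/-- The code of a 0/1 matrix: the list of its rows. -/
def matCode {m n : ℕ} (A : Fin m → Fin n → Bool) : List Bool :=
  bits (List.ofFn fun i => List.ofFn (A i))

/-- The probability that the algorithm `F` with `c` random bits finds a colouring of discrepancy at
most one of the matrix `A`. On input `A` and with the random bits `r` the output of the algorithm is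
the bit string `F (pairBits (matCode A) r)`; it is right if it is the string of the signs of such a
colouring. -/
noncomputable def colProb (F : List Bool → List Bool) (c : ℕ) {m n : ℕ}
    (A : Fin m → Fin n → Bool) : ℝ :=
  (Nat.card {r : Fin c → Bool // ∃ x : Fin n → Bool,
    F (pairBits (matCode A) (List.ofFn r)) = List.ofFn x ∧ DiscOne A x} : ℝ) / 2 ^ c

/-- The probability that the algorithm `F` with `c` random bits finds a colouring of discrepancy at
most one of a random `m × n` matrix whose entries are independent and equal to one with
probability `p`. -/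
noncomputable def colSuccess (F : List Bool → List Bool) (c : ℕ) (p : ℝ) (m n : ℕ) : ℝ :=
  ∑ A : Fin m → Fin n → Bool, (∏ i, ∏ j, if A i j then p else 1 - p) * colProb F c A

/-- There is a randomized polynomial-time algorithm, using `ℓ (m + n)` random bits for some
polynomial `ℓ`, which finds colourings of discrepancy at most one of random `m × n` matrices with
high probability (tending to one as `m` grows) in the regime `n ≥ C m² log m`, `p m ≥ C log n`,
where `p` is restricted to the set `S`. The question is about `S = [0, 1/2]`. -/
def ColouringAlgorithm (S : Set ℝ) (C : ℝ) : Prop :=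
  ∃ (F : List Bool → List Bool) (ℓ : Polynomial ℕ), PolyTime F ∧ ∀ ε : ℝ, 0 < ε → ∃ T : ℕ,
    ∀ m n : ℕ, T ≤ m → ∀ p ∈ S, C * (m : ℝ) ^ 2 * Real.log m ≤ n → C * Real.log n ≤ p * m →
      1 - ε ≤ colSuccess F (ℓ.eval (m + n)) p m n

/-- The vector `z` is a short integer solution for the matrix `B`: it is not zero, its entries are
`-1`, `0` or `1`, and `B z = 0` (over the integers, so also modulo `2 ^ k`). -/
def IsShortSol {s N k : ℕ} (B : Fin s → Fin N → Fin (2 ^ k)) (z : Fin N → ℤ) : Prop :=
  z ≠ 0 ∧ (∀ j, z j = -1 ∨ z j = 0 ∨ z j = 1) ∧ ∀ i, ∑ j, ((B i j : ℕ) : ℤ) * z j = 0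

/-- The code of an instance of the short integer solution problem: the modulus `2 ^ k` and the rows
of the matrix, all numbers in binary. -/
def sisCode {s N k : ℕ} (B : Fin s → Fin N → Fin (2 ^ k)) : List Bool :=
  bits ((2 ^ k : ℕ), List.ofFn fun i => List.ofFn fun j => (B i j : ℕ))

/-- The probability that the algorithm `G` with `c` random bits finds a short integer solution for
the matrix `B`. -/
noncomputable def solProb (G : List Bool → List Bool) (c : ℕ) {s N k : ℕ}
    (B : Fin s → Fin N → Fin (2 ^ k)) : ℝ :=
  (Nat.card {r : Fin c → Bool // ∃ z : Fin N → ℤ,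
    G (pairBits (sisCode B) (List.ofFn r)) = bits (List.ofFn z) ∧ IsShortSol B z} : ℝ) / 2 ^ c

/-- The probability that the algorithm `G` with `c` random bits finds a short integer solution for
a random `s × N` matrix with independent entries, uniformly distributed modulo `2 ^ k`. -/
noncomputable def solSuccess (G : List Bool → List Bool) (c s N k : ℕ) : ℝ :=
  (∑ B : Fin s → Fin N → Fin (2 ^ k), solProb G c B) / (2 ^ k) ^ (s * N)

/-- There is a randomized polynomial-time algorithm, using `ℓ (s + N + k)` random bits for some
polynomial `ℓ`, which finds short integer solutions for random `s × N` matrices modulo `2 ^ k` with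
high probability (tending to one as `s k` grows) in the regime `N ≥ C (s k)² log (s k)`,
`s k ≥ C log N`. -/
def ShortSolAlgorithm (C : ℝ) : Prop :=
  ∃ (G : List Bool → List Bool) (ℓ : Polynomial ℕ), PolyTime G ∧ ∀ ε : ℝ, 0 < ε → ∃ T : ℕ,
    ∀ s N k : ℕ, T ≤ s * k → C * ((s * k : ℕ) : ℝ) ^ 2 * Real.log (s * k : ℕ) ≤ N →
      C * Real.log N ≤ (s * k : ℕ) → 1 - ε ≤ solSuccess G (ℓ.eval (s + N + k)) s N k

end Pool.Agent.W5h82.Disc
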