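import Mathlib

/-!
# Uniform probability on finite types
-/

set_option autoImplicit false

namespace Pool.Agent.W5h82.Disc

open Finset

universe u v w

/-- the probability of an event under the uniform distribution -/
noncomputable def pr {Ω : Type u} (P : Ω → Prop) : ℝ :=
  (Nat.card {ω // P ω} : ℝ) / Nat.card Ω

theorem pr_eq {Ω : Type u} [Fintype Ω] (P : Ω → Prop) [DecidablePred P] :
    pr P = ((univ.filter P).card : ℝ) / Fintype.card Ω := by
  unfold pr
  rw [Nat.card_eq_fintype_card, Nat.card_eq_fintype_card, Fintype.card_subtype]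

variable {Ω : Type u} {Ω' : Type v} [Fintype Ω] [Fintype Ω']

theorem pr_nonneg {Ω : Type u} (P : Ω → Prop) : 0 ≤ pr P := by unfold pr; positivity

theorem pr_le_one (P : Ω → Prop) : pr P ≤ 1 := by
  classical
  rw [pr_eq]
  refine div_le_one_of_le₀ ?_ (by positivity)
  exact_mod_cast card_le_univ _

theorem pr_mono {P Q : Ω → Prop} (h : ∀ ω, P ω → Q ω) : pr P ≤ pr Q := by
  classical
  rw [pr_eq, pr_eq]
  gcongr 1
  exact_mod_cast card_le_card (monotone_filter_right _ fun a _ => h a)

theorem pr_congr {P Q : Ω → Prop} (h : ∀ ω, P ω ↔ Q ω) : pr P = pr Q :=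
  le_antisymm (pr_mono fun ω => (h ω).1) (pr_mono fun ω => (h ω).2)

theorem pr_or (P Q : Ω → Prop) : pr (fun ω => P ω ∨ Q ω) ≤ pr P + pr Q := by
  classical
  rw [pr_eq, pr_eq, pr_eq, ← add_div]
  gcongr
  rw [filter_or]
  exact_mod_cast card_union_le _ _

theorem pr_not [Nonempty Ω] (P : Ω → Prop) : pr (fun ω => ¬ P ω) = 1 - pr P := by
  classical
  rw [pr_eq, pr_eq]
  have h := card_filter_add_card_filter_not (s := (univ : Finset Ω)) P
  have h2 : (0 : ℝ) < Fintype.card Ω := by exact_mod_cast Fintype.card_pos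
  rw [eq_sub_iff_add_eq, ← add_div, div_eq_one_iff_eq h2.ne']
  rw [card_univ] at h
  rw [add_comm]
  exact_mod_cast h

theorem pr_equiv {Ω : Type u} {Ω' : Type v} (e : Ω ≃ Ω') (P : Ω' → Prop) :
    pr (fun ω => P (e ω)) = pr P := by
  unfold pr
  rw [Nat.card_congr e, Nat.card_congr (e.subtypeEquiv (p := fun ω => P (e ω)) (q := P)
    fun _ => Iff.rfl)]

theorem pr_prod (P : Ω × Ω' → Prop) :
    pr P = (∑ a, pr (fun b => P (a, b))) / Fintype.card Ω := by
  classical
  rw [pr_eq]
  simp only [pr_eq]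
  rw [← sum_div, div_div, Fintype.card_prod, mul_comm (Fintype.card Ω' : ℝ)]
  push_cast
  congr 1
  rw [← Nat.cast_sum]
  congr 1
  rw [card_filter, ← univ_product_univ, sum_product]
  exact sum_congr rfl fun a _ => (card_filter _ _).symm

theorem pr_prod_le {P : Ω × Ω' → Prop} {δ : ℝ} (hδ : 0 ≤ δ)
    (h : ∀ a, pr (fun b => P (a, b)) ≤ δ) : pr P ≤ δ := by
  rw [pr_prod]
  refine div_le_of_le_mul₀ (by positivity) hδ ?_
  calc ∑ a, pr (fun b => P (a, b)) ≤ ∑ _a : Ω, δ := sum_le_sum fun a _ => h a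
    _ = δ * Fintype.card Ω := by simp [mul_comm]

theorem pr_fst [Nonempty Ω'] (P : Ω → Prop) : pr (fun ω : Ω × Ω' => P ω.1) = pr P := by
  classical
  rw [pr_prod]
  have h : ∀ a, pr (fun _ : Ω' => P a) = if P a then 1 else 0 := by
    intro a
    rw [pr_eq]
    have h2 : (0 : ℝ) < Fintype.card Ω' := by exact_mod_cast Fintype.card_pos
    split_ifs with ha
    · simp only [ha, filter_true, card_univ]
      exact div_self h2.ne'
    · simp [ha]
  simp only [h]
  rw [pr_eq]
  congr 1
  rw [card_filter]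
  push_cast
  rfl

theorem pr_snd [Nonempty Ω] (P : Ω' → Prop) : pr (fun ω : Ω × Ω' => P ω.2) = pr P := by
  rw [← pr_fst (Ω := Ω') (Ω' := Ω) P]
  exact pr_equiv (Equiv.prodComm Ω Ω') (fun ω => P ω.1)

/-- the restriction of a random function along an injection is a random function -/
theorem pr_comp_inj {I : Type u} {J : Type v} {R : Type w} [Fintype I] [Fintype J] [Fintype R]
    [Nonempty R] {τ : I → J} (hτ : Function.Injective τ) (P : (I → R) → Prop) :
    pr (fun X : J → R => P (X ∘ τ)) = pr P := by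
  classical
  set e1 := Equiv.piEquivPiSubtypeProd (fun j : J => j ∈ Set.range τ) (fun _ => R) with he1
  set e2 : ((j : {j // j ∈ Set.range τ}) → R) ≃ (I → R) :=
    Equiv.arrowCongr (Equiv.ofInjective τ hτ).symm (Equiv.refl R) with he2
  have h1 : ∀ X : J → R, P (X ∘ τ) ↔ P (e2 (e1 X).1) := by
    intro X
    have : X ∘ τ = e2 (e1 X).1 := by
      funext i
      simp [he1, he2, Equiv.arrowCongr]
    rw [this]
  rw [pr_congr h1, pr_equiv e1 (fun ω => P (e2 ω.1)),
    pr_fst (fun a : ((j : {j // j ∈ Set.range τ}) → R) => P (e2 a)), pr_equiv e2 P]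

/-- independent coordinates -/
theorem pr_pi {I : Type u} {R : Type w} [Fintype I] [Fintype R] (P : R → Prop) :
    pr (fun X : I → R => ∀ i, P (X i)) = pr P ^ Fintype.card I := by
  classical
  rw [pr_eq, pr_eq]
  have h : (univ.filter fun X : I → R => ∀ i, P (X i)) =
      Fintype.piFinset fun _ : I => univ.filter P := by
    ext X
    simp [Fintype.mem_piFinset]
  rw [h, Fintype.card_piFinset, div_pow]
  congr 1
  · simp
  · rw [Fintype.card_fun]
    push_cast
    rfl

/-- Few zeros among `4 M` random bits. -/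
theorem pr_few (M : ℕ) :
    pr (fun c : Fin (4 * M) → Bool => (univ.filter fun i => c i = false).card < M) ≤
      (16 / 27 : ℝ) ^ M := by
  classical
  rw [pr_eq]
  set w : Bool → ℝ := fun b => if b = false then 1 / 3 else 1 with hw
  have h1 : ∑ c : Fin (4 * M) → Bool, ∏ i, w (c i) = (4 / 3 : ℝ) ^ (4 * M) := by
    have := (Finset.prod_univ_sum (fun _ : Fin (4 * M) => (univ : Finset Bool))
      (fun _ b => w b)).symm
    rw [Fintype.piFinset_univ] at this
    rw [this]
    simp only [Fintype.sum_bool, hw, prod_const, card_univ, Fintype.card_fin]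
    norm_num
  have h2 : ∀ c : Fin (4 * M) → Bool,
      ∏ i, w (c i) = (1 / 3 : ℝ) ^ (univ.filter fun i => c i = false).card := by
    intro c
    rw [hw]
    simp only [prod_ite, prod_const, one_pow, mul_one]
  have h3 : (((univ.filter fun c : Fin (4 * M) → Bool =>
      (univ.filter fun i => c i = false).card < M).card : ℕ) : ℝ) ≤ 3 ^ M * (4 / 3 : ℝ) ^ (4 * M) := by
    rw [← h1, mul_sum, card_filter]
    push_cast
    refine sum_le_sum fun c _ => ?_
    split_ifs with hc
    · rw [h2]
      calc (1 : ℝ) = 3 ^ M * (1 / 3) ^ M := by rw [← mul_pow]; norm_num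
        _ ≤ 3 ^ M * (1 / 3) ^ (univ.filter fun i => c i = false).card := by
          gcongr _ * ?_
          exact pow_le_pow_of_le_one (by norm_num) (by norm_num) hc.le
    · have : 0 ≤ ∏ i, w (c i) := prod_nonneg fun i _ => by rw [hw]; positivity
      positivity
  rw [Fintype.card_fun, Fintype.card_bool, Fintype.card_fin]
  push_cast
  rw [div_le_iff₀ (by positivity)]
  refine le_trans h3 (le_of_eq ?_)
  rw [pow_mul, pow_mul, ← mul_pow, ← mul_pow]
  norm_num

end Pool.Agent.W5h82.Disc
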