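import Pool.Agent.W5h82.Disc.Defs
import Pool.Agent.W5h82.Disc.Prob

/-!
# Two colourings give a short integer relation
-/

set_option autoImplicit false

namespace Pool.Agent.W5h82.Disc

open Finset

theorem sgn_sq (b : Bool) : sgn b * sgn b = 1 := by cases b <;> rfl

theorem sgn_mod (b : Bool) : sgn b ≡ 1 [ZMOD 2] := by cases b <;> decide

/-- the parity of a row -/
def par {N : ℕ} (f : Fin N → Bool) : Bool := decide ((∑ j, (f j).toNat) % 2 = 1)

/-- a row with prescribed parity -/
def ext {N : ℕ} (f : Fin N → Bool) (c : Bool) : Fin (N + 1) → Bool :=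
  Fin.snoc (α := fun _ => Bool) f (par f ^^ c)

/-- the equivalence of rows of length `N + 1` and rows of length `N` with a parity -/
def extEquiv (N : ℕ) : (Fin N → Bool) × Bool ≃ (Fin (N + 1) → Bool) where
  toFun p := ext p.1 p.2
  invFun a := (Fin.init (α := fun _ => Bool) a, par (Fin.init (α := fun _ => Bool) a) ^^ a (Fin.last N))
  left_inv p := by
    obtain ⟨f, c⟩ := p
    simp [ext]
  right_inv a := by
    simp [ext]

theorem dot_mod {n : ℕ} (a x : Fin n → Bool) : dot a x ≡ ∑ j, ((a j).toNat : ℤ) [ZMOD 2] := by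
  unfold dot
  apply Int.ModEq.sum
  intro j _
  cases a j
  · exact Int.ModEq.refl _
  · simpa using sgn_mod (x j)

theorem dot_ext {N : ℕ} (f : Fin N → Bool) (c : Bool) (x : Fin (N + 1) → Bool) :
    dot (ext f c) x = (∑ j, if f j then sgn (x j.castSucc) else 0) +
      if par f ^^ c then sgn (x (Fin.last N)) else 0 := by
  unfold dot ext
  rw [Fin.sum_univ_castSucc]
  simp

theorem dot_ext_mod {N : ℕ} (f : Fin N → Bool) (c : Bool) (x : Fin (N + 1) → Bool) :
    dot (ext f c) x ≡ c.toNat [ZMOD 2] := by
  refine (dot_mod _ _).trans ?_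
  unfold ext
  rw [Fin.sum_univ_castSucc]
  simp only [Fin.snoc_castSucc, Fin.snoc_last]
  have h : (∑ j, ((f j).toNat : ℤ)) ≡ ((par f).toNat : ℤ) [ZMOD 2] := by
    have h1 : (∑ j, ((f j).toNat : ℤ)) = ((∑ j, (f j).toNat : ℕ) : ℤ) := by push_cast; rfl
    rw [h1]
    unfold par
    generalize (∑ j, (f j).toNat) = s
    unfold Int.ModEq
    rcases Nat.mod_two_eq_zero_or_one s with h2 | h2
    · simp [h2]; omega
    · simp [h2]; omega
  refine (h.add_right _).trans ?_
  cases par f <;> cases c <;> decide

theorem dot_even {N : ℕ} {f : Fin N → Bool} {x : Fin (N + 1) → Bool}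
    (h : |dot (ext f false) x| ≤ 1) : dot (ext f false) x = 0 := by
  have h1 := dot_ext_mod f false x
  unfold Int.ModEq at h1
  rw [abs_le] at h
  simp at h1
  omega

/-- the value of the coefficient -/
def zval (a b a' b' : Bool) : ℤ := if a' = b' then (if a = b then 0 else sgn a) else
  (if a = b then sgn a else 0)

theorem two_zval (a b a' b' : Bool) :
    2 * zval a b a' b' = sgn a - sgn a' * sgn b' * sgn b := by
  revert a b a' b'; decide

theorem zval_mem (a b a' b' : Bool) :
    zval a b a' b' = -1 ∨ zval a b a' b' = 0 ∨ zval a b a' b' = 1 := by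
  revert a b a' b'; decide

/-- the relation obtained from two colourings -/
def zvec {N : ℕ} (x y : Fin (N + 1) → Bool) (j : Fin N) : ℤ :=
  zval (x j.castSucc) (y j.castSucc) (x (Fin.last N)) (y (Fin.last N))

/-- the relation holds for every even row on which both colourings have discrepancy at most one -/
theorem zvec_rel {N : ℕ} {x y : Fin (N + 1) → Bool} {f : Fin N → Bool}
    (hx : |dot (ext f false) x| ≤ 1) (hy : |dot (ext f false) y| ≤ 1) :
    ∑ j, ((f j).toNat : ℤ) * zvec x y j = 0 := by
  have h1 := dot_even hx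
  have h2 := dot_even hy
  rw [dot_ext] at h1 h2
  have h3 : 2 * ∑ j, ((f j).toNat : ℤ) * zvec x y j =
      (∑ j, if f j then sgn (x j.castSucc) else 0) - sgn (x (Fin.last N)) * sgn (y (Fin.last N)) *
        (∑ j, if f j then sgn (y j.castSucc) else 0) := by
    rw [mul_sum, mul_sum, ← sum_sub_distrib]
    refine sum_congr rfl fun j _ => ?_
    have := two_zval (x j.castSucc) (y j.castSucc) (x (Fin.last N)) (y (Fin.last N))
    unfold zvec
    cases f j
    · simp
    · simp only [Bool.toNat_true, Nat.cast_one, one_mul, if_true]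
      exact this
  have h4 : (∑ j, if f j then sgn (x j.castSucc) else 0) =
      -(if par f then sgn (x (Fin.last N)) else 0) := by
    simp only [Bool.xor_false] at h1
    linarith
  have h5 : (∑ j, if f j then sgn (y j.castSucc) else 0) =
      -(if par f then sgn (y (Fin.last N)) else 0) := by
    simp only [Bool.xor_false] at h2
    linarith
  rw [h4, h5] at h3
  have h6 := sgn_sq (y (Fin.last N))
  generalize par f = b at h3
  cases b
  · simp at h3
    simpa using h3
  · simp only [if_true] at h3
    have : sgn (x (Fin.last N)) * sgn (y (Fin.last N)) * -sgn (y (Fin.last N)) =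
      - sgn (x (Fin.last N)) * (sgn (y (Fin.last N)) * sgn (y (Fin.last N))) := by ring
    rw [this, h6] at h3
    linarith

theorem sgn_injective {a b : Bool} (h : sgn a = sgn b) : a = b := by
  revert a b; decide

/-- if the relation is trivial, then the two colourings agree up to the sign -/
theorem dot_of_zvec_eq_zero {N : ℕ} {x y : Fin (N + 1) → Bool} (h : zvec x y = 0)
    (a : Fin (N + 1) → Bool) : |dot a x| = |dot a y| := by
  have h1 : ∀ j, sgn (x j) = sgn (x (Fin.last N)) * sgn (y (Fin.last N)) * sgn (y j) := by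
    intro j
    refine Fin.lastCases ?_ (fun j => ?_) j
    · rw [mul_assoc, sgn_sq, mul_one]
    · have h2 := two_zval (x j.castSucc) (y j.castSucc) (x (Fin.last N)) (y (Fin.last N))
      have h3 := congrFun h j
      unfold zvec at h3
      rw [h3] at h2
      simp at h2
      linarith
  have h2 : dot a x = sgn (x (Fin.last N)) * sgn (y (Fin.last N)) * dot a y := by
    unfold dot
    rw [mul_sum]
    refine sum_congr rfl fun j _ => ?_
    split_ifs
    · exact h1 j
    · simp
  rw [h2, abs_mul, abs_mul]
  have h3 : ∀ b, |sgn b| = 1 := by decide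
  rw [h3, h3, one_mul, one_mul]

end Pool.Agent.W5h82.Disc
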