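import Pool.Agent.W5h82.Disc.Alg

/-!
# The algorithm on lists and the functions of the analysis
-/

set_option autoImplicit false

namespace Pool.Agent.W5h82.Disc

open Pool.Agent.NPC Finset

theorem map_range_ofFn {β : Type} (f : ℕ → β) (n : ℕ) :
    (List.range n).map f = List.ofFn (fun i : Fin n => f i) := by
  apply List.ext_getElem <;> simp

theorem getD_ofFn {β : Type} {n : ℕ} (f : Fin n → β) (i : Fin n) (d : β) :
    (List.ofFn f).getD i d = f i := by
  rw [List.getD_eq_getElem?_getD, List.getElem?_ofFn, dif_pos i.2]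
  rfl

theorem parL_ofFn {N : ℕ} (f : Fin N → Bool) : parL (List.ofFn f) = par f := by
  unfold parL par
  rw [List.map_ofFn, List.sum_ofFn]
  have : ∀ j, ((fun b : Bool => bif b then 1 else 0) ∘ f) j = (f j).toNat := by
    intro j
    simp only [Function.comp]
    cases f j <;> rfl
  simp only [this]

theorem extL_ofFn {N : ℕ} (f : Fin N → Bool) (c : Bool) :
    extL (List.ofFn f) c = List.ofFn (ext f c) := by
  unfold extL ext
  rw [List.ofFn_succ', parL_ofFn]
  simp only [Fin.snoc_castSucc, Fin.snoc_last, List.concat_eq_append]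

theorem rkL_ofFn {m : ℕ} (c : Fin m → Bool) (i : Fin m) : rkL (List.ofFn c) i = rk c i := by
  unfold rkL rk
  rw [List.length_ofFn, ← List.toFinset_card_of_nodup (List.Nodup.filter _ List.nodup_range)]
  symm
  refine Finset.card_bij (fun t _ => (t : ℕ)) ?_ ?_ ?_
  · intro t ht
    simp only [mem_filter, mem_univ, true_and] at ht
    rw [List.mem_toFinset, List.mem_filter, List.mem_range, getD_ofFn, ht.2]
    refine ⟨t.2, ?_⟩
    simpa using ht.1
  · intro a _ b _ h
    exact Fin.ext h
  · intro t ht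
    rw [List.mem_toFinset, List.mem_filter, List.mem_range] at ht
    refine ⟨⟨t, ht.1⟩, ?_, rfl⟩
    have h2 := ht.2
    have h3 : (List.ofFn c).getD t false = c ⟨t, ht.1⟩ := getD_ofFn c ⟨t, ht.1⟩ false
    rw [h3] at h2
    simp only [mem_filter, mem_univ, true_and]
    simp only [Bool.and_eq_true, decide_eq_true_eq, Bool.not_eq_true'] at h2
    exact ⟨h2.1, h2.2⟩

theorem rowL_ofFn {m M N : ℕ} (E : Fin M → Fin N → Bool) (c : Fin m → Bool)
    (G : Fin m → Fin N → Bool) (i : Fin m) :
    rowL (List.ofFn fun t => List.ofFn (E t)) (List.ofFn c) (List.ofFn fun i => List.ofFn (G i)) i =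
      List.ofFn (Sum.elim E G (sel M c i)) := by
  unfold rowL sel
  rw [rkL_ofFn, getD_ofFn, List.length_ofFn]
  by_cases h : c i = false ∧ rk c i < M
  · rw [if_pos h, dif_pos h]
    exact getD_ofFn (fun t => List.ofFn (E t)) ⟨rk c i, h.2⟩ []
  · rw [if_neg h, dif_neg h]
    exact getD_ofFn (fun t => List.ofFn (G t)) i []

theorem matL_ofFn {m M N cc : ℕ} (E : Fin M → Fin N → Bool) (ρ : Run m N cc) :
    matL (List.ofFn fun t => List.ofFn (E t)) (List.ofFn ρ.1)
      (List.ofFn fun i => List.ofFn (ρ.2.1 i)) = List.ofFn fun i => List.ofFn (mat E ρ i) := by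
  unfold matL mat
  rw [List.length_ofFn, map_range_ofFn]
  congr 1
  funext i
  rw [rowL_ofFn, getD_ofFn, extL_ofFn]

/-- the total function of a random string -/
def tot {L : ℕ} (r : Fin L → Bool) (i : ℕ) : Bool := (List.ofFn r).getD i false

theorem tot_eq {L : ℕ} (r : Fin L → Bool) (i : Fin L) : tot r i = r i := getD_ofFn r i false

theorem slice_ofFn {L : ℕ} (r : Fin L → Bool) (a n : ℕ) :
    slice (List.ofFn r) a n = List.ofFn fun i : Fin n => tot r (a + i) := by
  unfold slice
  rw [map_range_ofFn]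
  rfl

theorem grid_ofFn {L : ℕ} (r : Fin L → Bool) (a m N : ℕ) :
    grid (List.ofFn r) a m N =
      List.ofFn fun i : Fin m => List.ofFn fun j : Fin N => tot r (a + i * N + j) := by
  unfold grid
  rw [map_range_ofFn]
  congr 1
  funext i
  rw [slice_ofFn]

/-- the run with random bits starting at position `o` -/
def runAt {L : ℕ} (m N cc : ℕ) (r : Fin L → Bool) (o : ℕ) : Run m N cc :=
  (fun i => tot r (o + i), (fun i j => tot r (o + m + i * N + j), fun t => tot r (o + m + m * N + t)))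

/-- the colouring found by the algorithm `F` -/
def out (F : List Bool → List Bool) {m n cc : ℕ} (A : Fin m → Fin n → Bool) (r : Fin cc → Bool) :
    Fin n → Bool := fun j => (F (pairBits (matCode A) (List.ofFn r))).getD j false

theorem runL_ofFn (F : List Bool → List Bool) {L M : ℕ} (m N cc o : ℕ) (E : Fin M → Fin N → Bool)
    (r : Fin L → Bool) (j : Fin (N + 1)) :
    (runL F (List.ofFn fun t => List.ofFn (E t)) (List.ofFn r) m N cc o).getD j false =
      out F (mat E (runAt m N cc r o)) (runAt m N cc r o).2.2 j := by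
  unfold runL out matCode
  rw [slice_ofFn, grid_ofFn, slice_ofFn]
  have := matL_ofFn E (runAt m N cc r o)
  rw [← this]
  rfl

theorem solveE_ofFn (F : List Bool → List Bool) (ℓ : Polynomial ℕ) {L M N : ℕ}
    (E : Fin M → Fin N → Bool) (r : Fin L → Bool) :
    solveE F ℓ (List.ofFn fun t => List.ofFn (E t)) N (List.ofFn r) = List.ofFn (zvec
      (out F (mat E (runAt (4 * M) N (coins ℓ (4 * M) N) r 0))
        (runAt (4 * M) N (coins ℓ (4 * M) N) r 0).2.2)
      (out F (mat E (runAt (4 * M) N (coins ℓ (4 * M) N) r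
        (4 * M + 4 * M * N + coins ℓ (4 * M) N)))
        (runAt (4 * M) N (coins ℓ (4 * M) N) r
          (4 * M + 4 * M * N + coins ℓ (4 * M) N)).2.2)) := by
  unfold solveE relL
  rw [List.length_ofFn, map_range_ofFn]
  congr 1
  funext j
  unfold zvec
  rw [← runL_ofFn, ← runL_ofFn, ← runL_ofFn, ← runL_ofFn]
  rfl

/-! ### The bits of the entries -/

theorem bitOf_eq (v b : ℕ) : bitOf v b = v.testBit b := by
  unfold bitOf
  rw [Nat.testBit_eq_inth]
  rfl

theorem sum_bitOf : ∀ (k v : ℕ), v < 2 ^ k → ∑ b : Fin k, 2 ^ (b : ℕ) * (bitOf v b).toNat = v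
  | 0, v, h => by
    simp at h
    simp [h]
  | k + 1, v, h => by
    rw [Fin.sum_univ_succ]
    have h1 := sum_bitOf k (v / 2) (by rw [pow_succ] at h; omega)
    have h2 : ∀ b : Fin k, 2 ^ ((b.succ : Fin (k + 1)) : ℕ) * (bitOf v (b.succ : Fin (k + 1))).toNat =
        2 * (2 ^ (b : ℕ) * (bitOf (v / 2) b).toNat) := by
      intro b
      rw [bitOf_eq, bitOf_eq, Fin.val_succ, Nat.testBit_succ, pow_succ]
      ring
    rw [sum_congr rfl fun b _ => h2 b, ← mul_sum, h1]
    have h3 : 2 ^ ((0 : Fin (k + 1)) : ℕ) * (bitOf v (0 : Fin (k + 1))).toNat = v % 2 := by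
      rw [bitOf_eq, Fin.val_zero, Nat.testBit_zero]
      rcases Nat.mod_two_eq_zero_or_one v with h | h <;> simp [h]
    rw [h3]
    omega

variable {s N k : ℕ}

/-- the bit rows of a matrix -/
def Eof (B : Fin s → Fin N → Fin (2 ^ k)) : Fin (s * k) → Fin N → Bool :=
  fun t j => bitOf (B t.divNat j) t.modNat

theorem bitRows_ofFn (B : Fin s → Fin N → Fin (2 ^ k)) :
    bitRows k (List.ofFn fun i => List.ofFn fun j => (B i j : ℕ)) =
      List.ofFn fun t => List.ofFn (Eof B t) := by
  unfold bitRows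
  rw [List.ofFn_mul, List.flatMap_def, List.map_ofFn]
  congr 2
  funext i
  simp only [Function.comp]
  rw [map_range_ofFn]
  congr 1
  funext b
  rw [List.map_ofFn]
  congr 1
  funext j
  simp only [Function.comp, Eof]
  have hk : 0 < k := b.pos
  have h1 : Fin.divNat (⟨i * k + b, by
      calc (i : ℕ) * k + b < (i + 1) * k := by rw [add_mul, one_mul]; omega
        _ ≤ s * k := Nat.mul_le_mul_right _ i.2⟩ : Fin (s * k)) = i := by
    apply Fin.ext
    simp only [Fin.coe_divNat]
    rw [mul_comm, Nat.mul_add_div hk, Nat.div_eq_of_lt b.2, add_zero]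
  have h2 : Fin.modNat (⟨i * k + b, by
      calc (i : ℕ) * k + b < (i + 1) * k := by rw [add_mul, one_mul]; omega
        _ ≤ s * k := Nat.mul_le_mul_right _ i.2⟩ : Fin (s * k)) = b := by
    apply Fin.ext
    simp only [Fin.coe_modNat]
    rw [mul_comm, Nat.mul_add_mod, Nat.mod_eq_of_lt b.2]
  rw [h1, h2]

theorem Eof_injective : Function.Injective (Eof : (Fin s → Fin N → Fin (2 ^ k)) → _) := by
  intro B B' h
  funext i j
  apply Fin.ext
  rw [← sum_bitOf k (B i j) (B i j).2, ← sum_bitOf k (B' i j) (B' i j).2]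
  refine sum_congr rfl fun b _ => ?_
  have hlt : (i : ℕ) * k + b < s * k := by
    calc (i : ℕ) * k + b < (i + 1) * k := by rw [add_mul, one_mul]; omega
      _ ≤ s * k := Nat.mul_le_mul_right _ i.2
  have hk : 0 < k := b.pos
  have h1 : Fin.divNat (⟨i * k + b, hlt⟩ : Fin (s * k)) = i := by
    apply Fin.ext
    simp only [Fin.coe_divNat]
    rw [mul_comm, Nat.mul_add_div hk, Nat.div_eq_of_lt b.2, add_zero]
  have h2 : Fin.modNat (⟨i * k + b, hlt⟩ : Fin (s * k)) = b := by
    apply Fin.ext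
    simp only [Fin.coe_modNat]
    rw [mul_comm, Nat.mul_add_mod, Nat.mod_eq_of_lt b.2]
  have h3 := congrFun (congrFun h ⟨i * k + b, hlt⟩) j
  unfold Eof at h3
  rw [h1, h2] at h3
  rw [h3]

/-- matrices modulo `2 ^ k` and matrices of bits -/
noncomputable def eofEquiv (s N k : ℕ) :
    (Fin s → Fin N → Fin (2 ^ k)) ≃ (Fin (s * k) → Fin N → Bool) :=
  Equiv.ofBijective Eof ((Fintype.bijective_iff_injective_and_card _).2 ⟨Eof_injective, by
    simp only [Fintype.card_fun, Fintype.card_fin, Fintype.card_bool]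
    rw [← pow_mul, ← pow_mul, ← pow_mul]
    congr 1
    ring⟩)

theorem rel_of_bits {B : Fin s → Fin N → Fin (2 ^ k)} {z : Fin N → ℤ}
    (h : ∀ t, ∑ j, ((Eof B t j).toNat : ℤ) * z j = 0) (i : Fin s) :
    ∑ j, ((B i j : ℕ) : ℤ) * z j = 0 := by
  have h1 : ∀ j, ((B i j : ℕ) : ℤ) = ∑ b : Fin k, 2 ^ (b : ℕ) * ((bitOf (B i j) b).toNat : ℤ) := by
    intro j
    conv_lhs => rw [← sum_bitOf k (B i j) (B i j).2]
    push_cast
    rfl
  simp only [h1, sum_mul]
  rw [sum_comm]
  apply sum_eq_zero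
  intro b _
  have hlt : (i : ℕ) * k + b < s * k := by
    calc (i : ℕ) * k + b < (i + 1) * k := by rw [add_mul, one_mul]; omega
      _ ≤ s * k := Nat.mul_le_mul_right _ i.2
  have hk : 0 < k := b.pos
  have h2 := h ⟨i * k + b, hlt⟩
  have h3 : Fin.divNat (⟨i * k + b, hlt⟩ : Fin (s * k)) = i := by
    apply Fin.ext
    simp only [Fin.coe_divNat]
    rw [mul_comm, Nat.mul_add_div hk, Nat.div_eq_of_lt b.2, add_zero]
  have h4 : Fin.modNat (⟨i * k + b, hlt⟩ : Fin (s * k)) = b := by
    apply Fin.ext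
    simp only [Fin.coe_modNat]
    rw [mul_comm, Nat.mul_add_mod, Nat.mod_eq_of_lt b.2]
  unfold Eof at h2
  rw [h3, h4] at h2
  simp only [mul_assoc]
  rw [← mul_sum, h2, mul_zero]

end Pool.Agent.W5h82.Disc
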