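import Pool.Agent.W5h82.Disc.Link

/-!
# The success probability of the reduction
-/

set_option autoImplicit false

namespace Pool.Agent.W5h82.Disc

open Pool.Agent.NPC Finset

variable {m N cc : ℕ}

/-- the index set of the random bits of a run -/
abbrev Idx (m N cc : ℕ) : Type := Fin m ⊕ ((Fin m × Fin N) ⊕ Fin cc)

/-- the number of random bits of a run -/
def wd (m N cc : ℕ) : ℕ := m + m * N + cc

/-- the position of a random bit -/
def posn : Idx m N cc → ℕ
  | Sum.inl i => i
  | Sum.inr (Sum.inl p) => m + p.1 * N + p.2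
  | Sum.inr (Sum.inr t) => m + m * N + t

theorem mul_add_lt (p : Fin m × Fin N) : (p.1 : ℕ) * N + p.2 < m * N := by
  calc (p.1 : ℕ) * N + p.2 < (p.1 + 1) * N := by rw [add_mul, one_mul]; omega
    _ ≤ m * N := Nat.mul_le_mul_right _ p.1.2

theorem posn_lt (x : Idx m N cc) : posn x < wd m N cc := by
  unfold wd
  match x with
  | Sum.inl i => simp only [posn]; omega
  | Sum.inr (Sum.inl p) =>
    have := mul_add_lt p
    simp only [posn]
    omega
  | Sum.inr (Sum.inr t) => simp only [posn]; omega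

theorem posn_injective : Function.Injective (posn : Idx m N cc → ℕ) := by
  intro x y h
  match x, y with
  | Sum.inl i, Sum.inl j =>
    simp only [posn] at h
    rw [Fin.ext h]
  | Sum.inl i, Sum.inr (Sum.inl p) => simp only [posn] at h; omega
  | Sum.inl i, Sum.inr (Sum.inr t) => simp only [posn] at h; omega
  | Sum.inr (Sum.inl p), Sum.inl i => simp only [posn] at h; omega
  | Sum.inr (Sum.inl p), Sum.inr (Sum.inl q) =>
    simp only [posn] at h
    obtain ⟨i, j⟩ := p
    obtain ⟨i', j'⟩ := q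
    simp only at h
    have hN : 0 < N := j.pos
    have h1 : (i : ℕ) * N + j = i' * N + j' := by omega
    have h2 : ((i : ℕ) * N + j) / N = i := by
      rw [mul_comm, Nat.mul_add_div hN, Nat.div_eq_of_lt j.2, add_zero]
    have h3 : ((i' : ℕ) * N + j') / N = i' := by
      rw [mul_comm, Nat.mul_add_div hN, Nat.div_eq_of_lt j'.2, add_zero]
    have h4 : (i : ℕ) = i' := by rw [← h2, ← h3, h1]
    rw [h4] at h1
    have h5 : (j : ℕ) = j' := by omega
    rw [Fin.ext h4, Fin.ext h5]
  | Sum.inr (Sum.inl p), Sum.inr (Sum.inr t) =>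
    have := mul_add_lt p
    simp only [posn] at h
    omega
  | Sum.inr (Sum.inr t), Sum.inl i => simp only [posn] at h; omega
  | Sum.inr (Sum.inr t), Sum.inr (Sum.inl p) =>
    have := mul_add_lt p
    simp only [posn] at h
    omega
  | Sum.inr (Sum.inr t), Sum.inr (Sum.inr t') =>
    simp only [posn] at h
    have : (t : ℕ) = t' := by omega
    rw [Fin.ext this]

/-- runs and bit vectors -/
def runEquiv (m N cc : ℕ) : (Idx m N cc → Bool) ≃ Run m N cc where
  toFun X := (fun i => X (Sum.inl i), (fun i j => X (Sum.inr (Sum.inl (i, j))),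
    fun t => X (Sum.inr (Sum.inr t))))
  invFun ρ := Sum.elim ρ.1 (Sum.elim (fun p => ρ.2.1 p.1 p.2) ρ.2.2)
  left_inv X := by
    funext x
    match x with
    | Sum.inl i => rfl
    | Sum.inr (Sum.inl p) => rfl
    | Sum.inr (Sum.inr t) => rfl
  right_inv ρ := rfl

/-- the positions of the random bits of the two runs -/
def posn2 {L : ℕ} (hL : 2 * wd m N cc ≤ L) : Idx m N cc ⊕ Idx m N cc → Fin L
  | Sum.inl x => ⟨posn x, by have := posn_lt x; omega⟩
  | Sum.inr x => ⟨wd m N cc + posn x, by have := posn_lt x; omega⟩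

theorem posn2_injective {L : ℕ} (hL : 2 * wd m N cc ≤ L) : Function.Injective (posn2 hL) := by
  intro x y h
  match x, y with
  | Sum.inl x, Sum.inl y =>
    simp only [posn2, Fin.mk.injEq] at h
    rw [posn_injective h]
  | Sum.inl x, Sum.inr y =>
    simp only [posn2, Fin.mk.injEq] at h
    have := posn_lt x
    omega
  | Sum.inr x, Sum.inl y =>
    simp only [posn2, Fin.mk.injEq] at h
    have := posn_lt y
    omega
  | Sum.inr x, Sum.inr y =>
    simp only [posn2, Fin.mk.injEq] at h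
    rw [posn_injective (by omega : posn x = posn y)]

theorem runAt_zero {L : ℕ} (hL : 2 * wd m N cc ≤ L) (r : Fin L → Bool) :
    runAt m N cc r 0 = runEquiv m N cc (fun x => r (posn2 hL (Sum.inl x))) := by
  have key : ∀ x : Idx m N cc, tot r (0 + posn x) = r (posn2 hL (Sum.inl x)) := by
    intro x
    rw [zero_add]
    exact tot_eq r ⟨posn x, by have := posn_lt x; omega⟩
  refine Prod.ext ?_ (Prod.ext ?_ ?_)
  · funext i
    exact key (Sum.inl i)
  · funext i j
    refine Eq.trans ?_ (key (Sum.inr (Sum.inl (i, j))))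
    change tot r (0 + m + i * N + j) = tot r (0 + (m + i * N + j))
    congr 1
    omega
  · funext t
    refine Eq.trans ?_ (key (Sum.inr (Sum.inr t)))
    change tot r (0 + m + m * N + t) = tot r (0 + (m + m * N + t))
    congr 1
    omega

theorem runAt_wd {L : ℕ} (hL : 2 * wd m N cc ≤ L) (r : Fin L → Bool) :
    runAt m N cc r (wd m N cc) = runEquiv m N cc (fun x => r (posn2 hL (Sum.inr x))) := by
  have key : ∀ x : Idx m N cc, tot r (wd m N cc + posn x) = r (posn2 hL (Sum.inr x)) := by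
    intro x
    exact tot_eq r ⟨wd m N cc + posn x, by have := posn_lt x; omega⟩
  refine Prod.ext ?_ (Prod.ext ?_ ?_)
  · funext i
    exact key (Sum.inl i)
  · funext i j
    refine Eq.trans ?_ (key (Sum.inr (Sum.inl (i, j))))
    change tot r (wd m N cc + m + i * N + j) = tot r (wd m N cc + (m + i * N + j))
    congr 1
    omega
  · funext t
    refine Eq.trans ?_ (key (Sum.inr (Sum.inr t)))
    change tot r (wd m N cc + m + m * N + t) = tot r (wd m N cc + (m + m * N + t))
    congr 1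
    omega

/-- the two runs are independent and uniformly distributed -/
theorem pr_runs {L : ℕ} (hL : 2 * wd m N cc ≤ L) (Q : Run m N cc × Run m N cc → Prop) :
    pr (fun r : Fin L → Bool => Q (runAt m N cc r 0, runAt m N cc r (wd m N cc))) = pr Q := by
  set e : (Idx m N cc ⊕ Idx m N cc → Bool) ≃ Run m N cc × Run m N cc :=
    (Equiv.sumArrowEquivProdArrow _ _ _).trans
      (Equiv.prodCongr (runEquiv m N cc) (runEquiv m N cc)) with he
  rw [← pr_equiv e Q, ← pr_comp_inj (posn2_injective hL) (fun X => Q (e X))]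
  refine pr_congr fun r => ?_
  rw [runAt_zero hL, runAt_wd hL]
  rfl

/-! ### The success probabilities -/

theorem colProb_le (F : List Bool → List Bool) (c : ℕ) {m n : ℕ} (A : Fin m → Fin n → Bool) :
    colProb F c A ≤ pr (fun r : Fin c → Bool => DiscOne A (out F A r)) := by
  have h1 : colProb F c A = pr (fun r : Fin c → Bool => ∃ x : Fin n → Bool,
      F (pairBits (matCode A) (List.ofFn r)) = List.ofFn x ∧ DiscOne A x) := by
    unfold colProb pr
    simp
  rw [h1]
  refine pr_mono fun r h => ?_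
  obtain ⟨x, hx, hd⟩ := h
  have : out F A r = x := by
    funext j
    unfold out
    rw [hx]
    exact getD_ofFn x j false
  rw [this]
  exact hd

theorem colSuccess_half (F : List Bool → List Bool) (c m n : ℕ) :
    colSuccess F c (1 / 2) m n ≤ pr (fun ω : (Fin m → Fin n → Bool) × (Fin c → Bool) =>
      DiscOne ω.1 (out F ω.1 ω.2)) := by
  rw [pr_prod]
  unfold colSuccess
  rw [sum_div]
  refine sum_le_sum fun A _ => ?_
  have h1 : (∏ i : Fin m, ∏ j : Fin n, if A i j then (1 / 2 : ℝ) else 1 - 1 / 2) =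
      1 / Fintype.card (Fin m → Fin n → Bool) := by
    have h2 : ∀ i j, (if A i j then (1 / 2 : ℝ) else 1 - 1 / 2) = 1 / 2 := by
      intro i j
      split_ifs <;> norm_num
    simp only [h2, prod_const, card_univ, Fintype.card_fin, Fintype.card_fun, Fintype.card_bool]
    push_cast
    rw [one_div, inv_pow, inv_pow, one_div]
  rw [h1, one_div, inv_mul_eq_div]
  gcongr
  exact colProb_le F c A

theorem bits_two_pow_length (k : ℕ) : (2 ^ k : ℕ).bits.length - 1 = k := by
  rw [Nat.size_eq_bits_len, Nat.size_pow]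
  rfl

theorem cols_ofFn {s N : ℕ} (hs : 0 < s) (B : Fin s → Fin N → ℕ) :
    cols (List.ofFn fun i => List.ofFn (B i)) = N := by
  obtain ⟨s, rfl⟩ : ∃ s', s = s' + 1 := ⟨s - 1, by omega⟩
  unfold cols
  rw [List.ofFn_succ]
  simp

theorem success (F : List Bool → List Bool) (ℓ : Polynomial ℕ) {s N k L : ℕ} (hN : 8 ≤ N)
    (hs : 0 < s) (hL : 2 * wd (4 * (s * k)) N (coins ℓ (4 * (s * k)) N) ≤ L) :
    1 - (2 * (1 - colSuccess F (coins ℓ (4 * (s * k)) N) (1 / 2) (4 * (s * k)) (N + 1)) +
      2 * (16 / 27 : ℝ) ^ (s * k) + (31 / 32 : ℝ) ^ (4 * (s * k))) ≤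
      solSuccess (solve F ℓ) L s N k := by
  set M := s * k with hM
  set cc := coins ℓ (4 * M) N with hcc
  -- the event
  set z : (Fin s → Fin N → Fin (2 ^ k)) → (Fin L → Bool) → Fin N → ℤ := fun B r =>
    zvec (out F (mat (Eof B) (runAt (4 * M) N cc r 0)) (runAt (4 * M) N cc r 0).2.2)
      (out F (mat (Eof B) (runAt (4 * M) N cc r (wd (4 * M) N cc)))
        (runAt (4 * M) N cc r (wd (4 * M) N cc)).2.2) with hz
  have hsol : ∀ B r, solve F ℓ (pairBits (sisCode B) (List.ofFn r)) =
      bits (List.ofFn (z B r)) := by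
    intro B r
    unfold sisCode
    rw [solve_eq]
    unfold solveB
    rw [bits_two_pow_length, bitRows_ofFn, cols_ofFn hs (fun i j => ((B i j : Fin (2 ^ k)) : ℕ)),
      solveE_ofFn]
    rfl
  have h1 : solSuccess (solve F ℓ) L s N k =
      pr (fun ω : (Fin s → Fin N → Fin (2 ^ k)) × (Fin L → Bool) => IsShortSol ω.1 (z ω.1 ω.2)) := by
    rw [pr_prod]
    unfold solSuccess
    congr 1
    · refine sum_congr rfl fun B _ => ?_
      unfold solProb pr
      simp only [Nat.card_eq_fintype_card, Fintype.card_fun, Fintype.card_bool, Fintype.card_fin]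
      push_cast
      congr 2
      apply Nat.card_congr
      apply Equiv.subtypeEquivRight
      intro r
      rw [hsol]
      constructor
      · rintro ⟨z', h1, h2⟩
        have h3 := List.ofFn_injective (bits_injective h1)
        rw [h3]
        exact h2
      · intro h
        exact ⟨_, rfl, h⟩
    · simp only [Fintype.card_fun, Fintype.card_fin]
      push_cast
      rw [mul_comm s N, pow_mul]
  have h2 : pr (fun ω : (Fin s → Fin N → Fin (2 ^ k)) × (Fin L → Bool) =>
      ¬ IsShortSol ω.1 (z ω.1 ω.2)) ≤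
      2 * (1 - colSuccess F cc (1 / 2) (4 * M) (N + 1)) + 2 * (16 / 27 : ℝ) ^ M +
        (31 / 32 : ℝ) ^ (4 * M) := by
    have h3 : pr (fun ω : (Fin s → Fin N → Fin (2 ^ k)) × (Fin L → Bool) =>
        ¬ IsShortSol ω.1 (z ω.1 ω.2)) ≤
        pr (fun ω : (Fin s → Fin N → Fin (2 ^ k)) × (Fin L → Bool) =>
        ¬ (z ω.1 ω.2 ≠ 0 ∧ ∀ t, ∑ j, ((Eof ω.1 t j).toNat : ℤ) * z ω.1 ω.2 j = 0)) := by
      refine pr_mono fun ω h h' => h ⟨h'.1, fun j => ?_, rel_of_bits h'.2⟩
      exact zval_mem _ _ _ _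
    refine h3.trans ?_
    have h4 : pr (fun ω : (Fin s → Fin N → Fin (2 ^ k)) × (Fin L → Bool) =>
        ¬ (z ω.1 ω.2 ≠ 0 ∧ ∀ t, ∑ j, ((Eof ω.1 t j).toNat : ℤ) * z ω.1 ω.2 j = 0)) =
        pr (fun ω : (Fin M → Fin N → Bool) × (Run (4 * M) N cc × Run (4 * M) N cc) =>
      ¬ (zvec (out F (mat ω.1 ω.2.1) ω.2.1.2.2) (out F (mat ω.1 ω.2.2) ω.2.2.2.2) ≠ 0 ∧
        ∀ t, ∑ j, ((ω.1 t j).toNat : ℤ) *
          zvec (out F (mat ω.1 ω.2.1) ω.2.1.2.2) (out F (mat ω.1 ω.2.2) ω.2.2.2.2) j = 0)) := by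
      set W : (Fin M → Fin N → Bool) → Run (4 * M) N cc × Run (4 * M) N cc → Prop := fun E ρ =>
        ¬ (zvec (out F (mat E ρ.1) ρ.1.2.2) (out F (mat E ρ.2) ρ.2.2.2) ≠ 0 ∧
        ∀ t, ∑ j, ((E t j).toNat : ℤ) *
          zvec (out F (mat E ρ.1) ρ.1.2.2) (out F (mat E ρ.2) ρ.2.2.2) j = 0) with hW
      change pr (fun ω : (Fin s → Fin N → Fin (2 ^ k)) × (Fin L → Bool) =>
        W (Eof ω.1) (runAt (4 * M) N cc ω.2 0, runAt (4 * M) N cc ω.2 (wd (4 * M) N cc))) =
        pr (fun ω : (Fin M → Fin N → Bool) × (Run (4 * M) N cc × Run (4 * M) N cc) =>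
          W ω.1 ω.2)
      rw [pr_prod, pr_prod]
      have h5 : ∀ B : Fin s → Fin N → Fin (2 ^ k), pr (fun r : Fin L → Bool =>
          W (Eof B) (runAt (4 * M) N cc r 0, runAt (4 * M) N cc r (wd (4 * M) N cc))) =
          pr (W (Eof B)) := fun B => pr_runs hL (W (Eof B))
      simp only [h5]
      have h6 : ∑ B : Fin s → Fin N → Fin (2 ^ k), pr (W (Eof B)) =
          ∑ E : Fin M → Fin N → Bool, pr (W E) :=
        Equiv.sum_comp (eofEquiv s N k) (fun E => pr (W E))
      rw [h6, Fintype.card_congr (eofEquiv s N k)]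
    rw [h4]
    refine (pr_main hN (out F)).trans ?_
    have h5 : pr (fun ω : (Fin (4 * M) → Fin (N + 1) → Bool) × (Fin cc → Bool) =>
        ¬ DiscOne ω.1 (out F ω.1 ω.2)) ≤ 1 - colSuccess F cc (1 / 2) (4 * M) (N + 1) := by
      rw [pr_not]
      have := colSuccess_half F cc (4 * M) (N + 1)
      linarith
    linarith
  rw [h1]
  have hne : Nonempty ((Fin s → Fin N → Fin (2 ^ k)) × (Fin L → Bool)) :=
    ⟨(fun _ _ => ⟨0, by positivity⟩, fun _ => false)⟩
  rw [pr_not] at h2
  linarith

end Pool.Agent.W5h82.Disc
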