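import Pool.Agent.W5h82.Disc.Anti

/-!
# Hiding given rows in a random matrix
-/

set_option autoImplicit false

namespace Pool.Agent.W5h82.Disc

open Finset

variable {m M N cc : ℕ}

/-- the number of even rows before row `i` -/
def rk (c : Fin m → Bool) (i : Fin m) : ℕ := (univ.filter fun t => t < i ∧ c t = false).card

/-- the row that is used at position `i`: the next given row at the even positions, as long as there
is one, and a new random row otherwise -/
def sel (M : ℕ) (c : Fin m → Bool) (i : Fin m) : Fin M ⊕ Fin m :=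
  if h : c i = false ∧ rk c i < M then Sum.inl ⟨rk c i, h.2⟩ else Sum.inr i

theorem rk_lt {c : Fin m → Bool} {i j : Fin m} (hi : c i = false) (h : i < j) :
    rk c i < rk c j := by
  unfold rk
  apply card_lt_card
  rw [ssubset_iff_of_subset]
  · refine ⟨i, ?_, ?_⟩
    · simp [hi, h]
    · simp
  · intro t ht
    simp only [mem_filter, mem_univ, true_and] at ht ⊢
    exact ⟨ht.1.trans h, ht.2⟩

theorem rk_inj {c : Fin m → Bool} {i j : Fin m} (hi : c i = false) (hj : c j = false)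
    (h : rk c i = rk c j) : i = j := by
  rcases lt_trichotomy i j with h1 | h1 | h1
  · have := rk_lt hi h1; omega
  · exact h1
  · have := rk_lt hj h1; omega

theorem sel_injective (M : ℕ) (c : Fin m → Bool) : Function.Injective (sel M c) := by
  intro i j h
  unfold sel at h
  split_ifs at h with h1 h2
  · rw [Sum.inl.injEq, Fin.mk.injEq] at h
    exact rk_inj h1.1 h2.1 h
  · exact Sum.inr.inj h

theorem exists_sel (c : Fin m → Bool) (h : M ≤ (univ.filter fun i => c i = false).card)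
    (t : Fin M) : ∃ i, c i = false ∧ sel M c i = Sum.inl t := by
  set F := univ.filter fun i => c i = false with hF
  have h1 : F.image (rk c) ⊆ range F.card := by
    intro k hk
    rw [mem_image] at hk
    obtain ⟨i, hi, rfl⟩ := hk
    rw [mem_range]
    unfold rk
    apply card_lt_card
    rw [ssubset_iff_of_subset]
    · exact ⟨i, hi, by simp⟩
    · intro s hs
      simp only [mem_filter, mem_univ, true_and, hF] at hs ⊢
      exact hs.2
  have h2 : (F.image (rk c)).card = F.card := by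
    apply card_image_of_injOn
    intro i hi j hj hij
    have hi' : i ∈ F := hi
    have hj' : j ∈ F := hj
    rw [hF, mem_filter] at hi' hj'
    exact rk_inj hi'.2 hj'.2 hij
  have h3 := eq_of_subset_of_card_le h1 (by rw [h2, card_range])
  have h4 : (t : ℕ) ∈ F.image (rk c) := by
    rw [h3, mem_range]
    exact lt_of_lt_of_le t.2 h
  rw [mem_image] at h4
  obtain ⟨i, hi, hk⟩ := h4
  rw [hF, mem_filter] at hi
  refine ⟨i, hi.2, ?_⟩
  unfold sel
  rw [dif_pos ⟨hi.2, by rw [hk]; exact t.2⟩]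
  congr 1
  exact Fin.ext hk

/-- one run: the parities of the rows, the new random rows, the random bits of the algorithm -/
abbrev Run (m N cc : ℕ) : Type := (Fin m → Bool) × ((Fin m → Fin N → Bool) × (Fin cc → Bool))

/-- the matrix -/
def mat (E : Fin M → Fin N → Bool) (ρ : Run m N cc) : Fin m → Fin (N + 1) → Bool :=
  fun i => ext (Sum.elim E ρ.2.1 (sel M ρ.1 i)) (ρ.1 i)

/-- rows with parities -/
def asmEquiv (m N : ℕ) : (Fin m → Bool) × (Fin m → Fin N → Bool) ≃ (Fin m → Fin (N + 1) → Bool) where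
  toFun p := fun i => ext (p.2 i) (p.1 i)
  invFun A := (fun i => ((extEquiv N).symm (A i)).2, fun i => ((extEquiv N).symm (A i)).1)
  left_inv p := by
    obtain ⟨c, H⟩ := p
    have h : ∀ i, (extEquiv N).symm (ext (H i) (c i)) = (H i, c i) := fun i =>
      (extEquiv N).symm_apply_apply (H i, c i)
    simp only [h]
  right_inv A := by
    funext i
    exact (extEquiv N).apply_symm_apply (A i)

/-- the matrix of a run is uniformly distributed -/
theorem pr_mat (P : (Fin m → Fin (N + 1) → Bool) → (Fin cc → Bool) → Prop) :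
    pr (fun ω : (Fin M → Fin N → Bool) × Run m N cc => P (mat ω.1 ω.2) ω.2.2.2) =
      pr (fun ω : (Fin m → Fin (N + 1) → Bool) × (Fin cc → Bool) => P ω.1 ω.2) := by
  classical
  set e : (Fin m → Bool) × ((Fin cc → Bool) × (Fin M ⊕ Fin m → Fin N → Bool)) ≃
      (Fin M → Fin N → Bool) × Run m N cc :=
    { toFun := fun p => (fun t => p.2.2 (Sum.inl t), (p.1, (fun i => p.2.2 (Sum.inr i), p.2.1)))
      invFun := fun q => (q.2.1, (q.2.2.2, Sum.elim q.1 q.2.2.1))
      left_inv := fun p => by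
        obtain ⟨c, r, X⟩ := p
        simp only [Prod.mk.injEq, true_and]
        funext s
        cases s <;> rfl
      right_inv := fun q => rfl } with he
  rw [← pr_equiv e]
  have h1 : ∀ p, (P (mat (e p).1 (e p).2) (e p).2.2.2 ↔
      P (fun i => ext (p.2.2 (sel M p.1 i)) (p.1 i)) p.2.1) := by
    intro p
    obtain ⟨c, r, X⟩ := p
    have : mat (e (c, r, X)).1 (e (c, r, X)).2 = fun i => ext (X (sel M c i)) (c i) := by
      funext i
      change ext (Sum.elim (fun t => X (Sum.inl t)) (fun i => X (Sum.inr i)) (sel M c i)) (c i) = _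
      congr 1
      cases sel M c i <;> rfl
    rw [this]
    rfl
  rw [pr_congr h1, pr_prod]
  have h2 : ∀ c : Fin m → Bool,
      pr (fun b : (Fin cc → Bool) × (Fin M ⊕ Fin m → Fin N → Bool) =>
        P (fun i => ext (b.2 (sel M c i)) (c i)) b.1) =
      pr (fun b : (Fin cc → Bool) × (Fin m → Fin N → Bool) =>
        P (fun i => ext (b.2 i) (c i)) b.1) := by
    intro c
    rw [pr_prod, pr_prod]
    congr 1
    refine sum_congr rfl fun r _ => ?_
    exact pr_comp_inj (sel_injective M c) (fun H : Fin m → Fin N → Bool =>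
      P (fun i => ext (H i) (c i)) r)
  simp only [h2]
  rw [← pr_prod (fun p : (Fin m → Bool) × ((Fin cc → Bool) × (Fin m → Fin N → Bool)) =>
    P (fun i => ext (p.2.2 i) (p.1 i)) p.2.1)]
  set e' : (Fin m → Bool) × ((Fin cc → Bool) × (Fin m → Fin N → Bool)) ≃
      (Fin m → Fin (N + 1) → Bool) × (Fin cc → Bool) :=
    { toFun := fun p => (asmEquiv m N (p.1, p.2.2), p.2.1)
      invFun := fun q => (((asmEquiv m N).symm q.1).1, (q.2, ((asmEquiv m N).symm q.1).2))
      left_inv := fun p => by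
        obtain ⟨c, r, X⟩ := p
        simp
      right_inv := fun q => by
        obtain ⟨A, r⟩ := q
        simp } with he'
  rw [← pr_equiv e']
  rfl

theorem pr_run1 {E : Type} {R : Type} [Fintype E] [Fintype R] [Nonempty R] (Q : E → R → Prop) :
    pr (fun ω : E × (R × R) => Q ω.1 ω.2.1) = pr (fun ω : E × R => Q ω.1 ω.2) := by
  rw [pr_prod, pr_prod]
  congr 1
  exact sum_congr rfl fun e _ => pr_fst (Q e)

theorem pr_run2 {E : Type} {R : Type} [Fintype E] [Fintype R] [Nonempty R] (Q : E → R → Prop) :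
    pr (fun ω : E × (R × R) => Q ω.1 ω.2.2) = pr (fun ω : E × R => Q ω.1 ω.2) := by
  rw [pr_prod, pr_prod]
  congr 1
  exact sum_congr rfl fun e _ => pr_snd (Q e)

/-- two colourings coincide with small probability -/
theorem pr_coin (hN : 8 ≤ N) (x : Fin (N + 1) → Bool) :
    pr (fun ρ : Run m N cc => ∀ i, ρ.1 i = true → |dot (ext (ρ.2.1 i) (ρ.1 i)) x| ≤ 1) ≤
      (31 / 32 : ℝ) ^ m := by
  set e : Run m N cc ≃ (Fin m → (Fin N → Bool) × Bool) × (Fin cc → Bool) :=
    { toFun := fun p => (fun i => (p.2.1 i, p.1 i), p.2.2)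
      invFun := fun q => (fun i => (q.1 i).2, (fun i => (q.1 i).1, q.2))
      left_inv := fun p => rfl
      right_inv := fun q => rfl } with he
  have h1 : pr (fun ρ : Run m N cc => ∀ i, ρ.1 i = true →
      |dot (ext (ρ.2.1 i) (ρ.1 i)) x| ≤ 1) =
      pr (fun q : (Fin m → (Fin N → Bool) × Bool) × (Fin cc → Bool) =>
        ∀ i, (q.1 i).2 = true → |dot (ext (q.1 i).1 (q.1 i).2) x| ≤ 1) := by
    rw [← pr_equiv e]
    rfl
  rw [h1, pr_fst (fun X : Fin m → (Fin N → Bool) × Bool =>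
    ∀ i, (X i).2 = true → |dot (ext (X i).1 (X i).2) x| ≤ 1)]
  rw [pr_pi (I := Fin m) (fun p : (Fin N → Bool) × Bool => p.2 = true →
    |dot (ext p.1 p.2) x| ≤ 1), Fintype.card_fin]
  exact pow_le_pow_left₀ (pr_nonneg _) (pr_ext hN x) m

/-- **The analysis of the reduction.** `out` is the colouring found by the algorithm. -/
theorem pr_main (hN : 8 ≤ N)
    (out : (Fin (4 * M) → Fin (N + 1) → Bool) → (Fin cc → Bool) → (Fin (N + 1) → Bool)) :
    pr (fun ω : (Fin M → Fin N → Bool) × (Run (4 * M) N cc × Run (4 * M) N cc) =>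
      ¬ (zvec (out (mat ω.1 ω.2.1) ω.2.1.2.2) (out (mat ω.1 ω.2.2) ω.2.2.2.2) ≠ 0 ∧
        ∀ t, ∑ j, ((ω.1 t j).toNat : ℤ) *
          zvec (out (mat ω.1 ω.2.1) ω.2.1.2.2) (out (mat ω.1 ω.2.2) ω.2.2.2.2) j = 0)) ≤
      2 * pr (fun ω : (Fin (4 * M) → Fin (N + 1) → Bool) × (Fin cc → Bool) =>
        ¬ DiscOne ω.1 (out ω.1 ω.2)) + 2 * (16 / 27 : ℝ) ^ M + (31 / 32 : ℝ) ^ (4 * M) := by
  set δ := pr (fun ω : (Fin (4 * M) → Fin (N + 1) → Bool) × (Fin cc → Bool) =>
    ¬ DiscOne ω.1 (out ω.1 ω.2)) with hδ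
  set Ω := (Fin M → Fin N → Bool) × (Run (4 * M) N cc × Run (4 * M) N cc) with hΩ
  have b1 : pr (fun ω : Ω => ¬ DiscOne (mat ω.1 ω.2.1) (out (mat ω.1 ω.2.1) ω.2.1.2.2)) = δ := by
    rw [pr_run1 (fun (E : Fin M → Fin N → Bool) (ρ : Run (4 * M) N cc) =>
      ¬ DiscOne (mat E ρ) (out (mat E ρ) ρ.2.2))]
    exact pr_mat (fun A r => ¬ DiscOne A (out A r))
  have b2 : pr (fun ω : Ω => ¬ DiscOne (mat ω.1 ω.2.2) (out (mat ω.1 ω.2.2) ω.2.2.2.2)) = δ := by
    rw [pr_run2 (fun (E : Fin M → Fin N → Bool) (ρ : Run (4 * M) N cc) =>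
      ¬ DiscOne (mat E ρ) (out (mat E ρ) ρ.2.2))]
    exact pr_mat (fun A r => ¬ DiscOne A (out A r))
  have hfew : pr (fun ρ : Run (4 * M) N cc => (univ.filter fun i => ρ.1 i = false).card < M) ≤
      (16 / 27 : ℝ) ^ M := by
    rw [pr_fst (fun c : Fin (4 * M) → Bool => (univ.filter fun i => c i = false).card < M)]
    exact pr_few M
  have f1 : pr (fun ω : Ω => (univ.filter fun i => ω.2.1.1 i = false).card < M) ≤
      (16 / 27 : ℝ) ^ M := by
    rw [pr_run1 (fun (_ : Fin M → Fin N → Bool) (ρ : Run (4 * M) N cc) =>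
      (univ.filter fun i => ρ.1 i = false).card < M),
      pr_snd (fun ρ : Run (4 * M) N cc => (univ.filter fun i => ρ.1 i = false).card < M)]
    exact hfew
  have f2 : pr (fun ω : Ω => (univ.filter fun i => ω.2.2.1 i = false).card < M) ≤
      (16 / 27 : ℝ) ^ M := by
    rw [pr_run2 (fun (_ : Fin M → Fin N → Bool) (ρ : Run (4 * M) N cc) =>
      (univ.filter fun i => ρ.1 i = false).card < M),
      pr_snd (fun ρ : Run (4 * M) N cc => (univ.filter fun i => ρ.1 i = false).card < M)]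
    exact hfew
  have cn : pr (fun ω : Ω => ∀ i, ω.2.2.1 i = true →
      |dot (ext (ω.2.2.2.1 i) (ω.2.2.1 i)) (out (mat ω.1 ω.2.1) ω.2.1.2.2)| ≤ 1) ≤
      (31 / 32 : ℝ) ^ (4 * M) := by
    refine pr_prod_le (by positivity) fun E => ?_
    refine pr_prod_le (by positivity) fun ρ => ?_
    exact pr_coin hN (out (mat E ρ) ρ.2.2)
  have key : ∀ ω : Ω, ¬ (zvec (out (mat ω.1 ω.2.1) ω.2.1.2.2) (out (mat ω.1 ω.2.2) ω.2.2.2.2) ≠ 0 ∧
        ∀ t, ∑ j, ((ω.1 t j).toNat : ℤ) *
          zvec (out (mat ω.1 ω.2.1) ω.2.1.2.2) (out (mat ω.1 ω.2.2) ω.2.2.2.2) j = 0) →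
      (¬ DiscOne (mat ω.1 ω.2.1) (out (mat ω.1 ω.2.1) ω.2.1.2.2) ∨
      ¬ DiscOne (mat ω.1 ω.2.2) (out (mat ω.1 ω.2.2) ω.2.2.2.2)) ∨
      ((univ.filter fun i => ω.2.1.1 i = false).card < M ∨
      (univ.filter fun i => ω.2.2.1 i = false).card < M) ∨
      ∀ i, ω.2.2.1 i = true →
        |dot (ext (ω.2.2.2.1 i) (ω.2.2.1 i)) (out (mat ω.1 ω.2.1) ω.2.1.2.2)| ≤ 1 := by
    rintro ⟨E, ρ₁, ρ₂⟩ h
    simp only at h ⊢
    by_contra hcon
    push Not at hcon
    obtain ⟨⟨d1, d2⟩, ⟨g1, g2⟩, i, hi, hi2⟩ := hcon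
    apply h
    constructor
    · intro hz
      have h1 := dot_of_zvec_eq_zero hz (ext (ρ₂.2.1 i) (ρ₂.1 i))
      have h2 := d2 i
      have h3 : mat E ρ₂ i = ext (ρ₂.2.1 i) (ρ₂.1 i) := by
        unfold mat sel
        rw [dif_neg (by rw [hi]; simp)]
        rfl
      rw [h3, ← h1] at h2
      omega
    · intro t
      obtain ⟨i, hi, hs⟩ := exists_sel ρ₁.1 g1 t
      obtain ⟨j, hj, hs'⟩ := exists_sel ρ₂.1 g2 t
      have h1 := d1 i
      have h2 := d2 j
      have h3 : mat E ρ₁ i = ext (E t) false := by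
        unfold mat
        rw [hs, hi]
        rfl
      have h4 : mat E ρ₂ j = ext (E t) false := by
        unfold mat
        rw [hs', hj]
        rfl
      rw [h3] at h1
      rw [h4] at h2
      exact zvec_rel h1 h2
  refine (pr_mono key).trans ((pr_or _ _).trans ?_)
  have h1 := pr_or (fun ω : Ω => ¬ DiscOne (mat ω.1 ω.2.1) (out (mat ω.1 ω.2.1) ω.2.1.2.2))
    (fun ω : Ω => ¬ DiscOne (mat ω.1 ω.2.2) (out (mat ω.1 ω.2.2) ω.2.2.2.2))
  have h2 := pr_or (fun ω : Ω => (univ.filter fun i => ω.2.1.1 i = false).card < M ∨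
      (univ.filter fun i => ω.2.2.1 i = false).card < M) (fun ω : Ω => ∀ i, ω.2.2.1 i = true →
      |dot (ext (ω.2.2.2.1 i) (ω.2.2.1 i)) (out (mat ω.1 ω.2.1) ω.2.1.2.2)| ≤ 1)
  have h3 := pr_or (fun ω : Ω => (univ.filter fun i => ω.2.1.1 i = false).card < M)
      (fun ω : Ω => (univ.filter fun i => ω.2.2.1 i = false).card < M)
  linarith

end Pool.Agent.W5h82.Disc
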